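import Pool.Agent.W841.PK.Stm2

set_option autoImplicit false

namespace W135.PK

open Finset W841.PK
open scoped Classical symmDiff

noncomputable section

theorem block (ht : S_TStep) (hp : S_PStep) (_hh : S_HeatC) : S_Block := by
  intro v v' F F' g g' hv hF hg hAN hAS hB
  obtain ⟨hvv, hF', hg', hmin, B, δ, m, u, P, hδ, hu0, hum, hus, hP, hE, hgg⟩ := hB
  have hv' : 0 < v' := by linarith
  constructor
  · intro y ε hε
    have h1 := ht v F hv hF hAN v' v' y (heat F (v' - v) y) hvv.le le_rfl
      (fun x hx hx' => by rw [le_antisymm hx' hx]) ε hε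
    refine h1.mono 0 ?_
    intro n _ S ρ G _ _ h t hrr
    have h2 := h t hrr.ge hrr.le
    have h3 : (((NN S ρ t G).filter (fun a => y ≤ zz S ρ t G a)).card : ℝ) ≤ (1 / v') * n := by
      have h4 : ((NN S ρ t G).filter (fun a => y ≤ zz S ρ t G a)).card ≤ rv n v' := by
        rw [← hrr]; exact card_filter_le _ _
      have h5 : (rv n v' : ℝ) ≤ (n : ℝ) / v' := by
        have h6 : (rv n v' : ℝ) ≤ (⌊(n : ℝ) / v'⌋₊ : ℝ) := by
          exact_mod_cast min_le_left _ _
        exact h6.trans (Nat.floor_le (by positivity))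
      calc (((NN S ρ t G).filter (fun a => y ≤ zz S ρ t G a)).card : ℝ) ≤ (rv n v' : ℝ) := by
            exact_mod_cast h4
        _ ≤ (n : ℝ) / v' := h5
        _ = (1 / v') * n := by ring
    have h7 := hmin y
    have hn : (0 : ℝ) ≤ n := Nat.cast_nonneg n
    rcases min_cases (1 / v') (heat F (v' - v) y) with ⟨h8, _⟩ | ⟨h8, _⟩
    · rw [h8] at h7
      calc _ ≤ (1 / v') * (n : ℝ) := h3
        _ ≤ (F' y + ε) * n := by
          apply mul_le_mul_of_nonneg_right _ hn
          linarith
    · rw [h8] at h7
      refine h2.trans ?_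
      apply mul_le_mul_of_nonneg_right _ hn
      linarith
  · have hmono : ∀ q, q ≤ m → v ≤ u q := by
      intro q
      induction q with
      | zero => intro _; rw [hu0]
      | succ q ih => intro hq; exact (ih (by omega)).trans (hus q (by omega)).le
    have h1 := hp v g hv hg hAS B δ m u P hδ hu0 hus hP (by
      intro q hq
      have h2 := ht v F hv hF hAN (u q) (u (q + 1)) (B + P (q + 1) * u q - δ)
        (1 / u (q + 1) - 2 * δ) (hmono q hq.le) (hus q hq).le (hE q hq) δ hδ
      refine h2.mono 0 ?_
      intro n _ S ρ G _ _ h t hr1 hr2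
      refine (h t hr1 hr2).trans (le_of_eq ?_)
      ring)
    rw [hum] at h1
    intro y ε hε
    refine (h1 y ε hε).mono 0 ?_
    intro n _ S ρ G _ _ h t hrr
    refine le_trans ?_ (h t hrr)
    apply mul_le_mul_of_nonneg_right _ (Real.sqrt_nonneg _)
    have := hgg y
    linarith

end

end W135.PK
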