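import Mathlib

set_option autoImplicit false

namespace W135.PK

open MeasureTheory ProbabilityTheory

/-- Hoeffding's lemma for a `±1` variable of mean `m` -/
theorem hoeff (m l : ℝ) (hm : |m| ≤ 1) :
    Real.exp (-l * m) * (Real.cosh l + m * Real.sinh l) ≤ Real.exp (l ^ 2 / 2) := by
  obtain ⟨h1, h2⟩ := abs_le.mp hm
  set μ : Measure ℝ := ENNReal.ofReal ((1 + m) / 2) • Measure.dirac (1 : ℝ) +
    ENNReal.ofReal ((1 - m) / 2) • Measure.dirac (-1 : ℝ) with hμ
  have hp : IsProbabilityMeasure μ := by
    constructor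
    rw [hμ]
    simp only [Measure.coe_add, Measure.coe_smul, Pi.add_apply, Pi.smul_apply,
      measure_univ, smul_eq_mul, mul_one]
    rw [← ENNReal.ofReal_add (by linarith) (by linarith)]
    rw [show (1 + m) / 2 + (1 - m) / 2 = 1 by ring, ENNReal.ofReal_one]
  have hint : ∀ f : ℝ → ℝ, Measurable f →
      ∫ x, f x ∂μ = (1 + m) / 2 * f 1 + (1 - m) / 2 * f (-1) := by
    intro f hf
    have i1 : ∀ a : ℝ, ∀ c : ℝ, Integrable f (ENNReal.ofReal c • Measure.dirac a) := by
      intro a c
      apply Integrable.smul_measure _ ENNReal.ofReal_ne_top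
      exact integrable_dirac (by simp)
    rw [hμ, integral_add_measure (i1 _ _) (i1 _ _), integral_smul_measure, integral_smul_measure,
      integral_dirac, integral_dirac, ENNReal.toReal_ofReal (by linarith),
      ENNReal.toReal_ofReal (by linarith), smul_eq_mul, smul_eq_mul]
  have hae : ∀ᵐ x ∂μ, x = 1 ∨ x = -1 := by
    rw [hμ]
    rw [ae_add_measure_iff]
    constructor
    · apply Measure.ae_smul_measure
      rw [ae_dirac_iff]
      · left; rfl
      · exact ((measurableSet_singleton (1:ℝ)).union (measurableSet_singleton (-1:ℝ)))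
    · apply Measure.ae_smul_measure
      rw [ae_dirac_iff]
      · right; rfl
      · exact ((measurableSet_singleton (1:ℝ)).union (measurableSet_singleton (-1:ℝ)))
  have hs := hasSubgaussianMGF_of_mem_Icc_of_integral_eq_zero (μ := μ) (X := fun x => x - m)
    (a := -1 - m) (b := 1 - m) (by fun_prop)
    (by
      filter_upwards [hae] with x hx
      rcases hx with rfl | rfl
      · exact ⟨by linarith, by linarith⟩
      · exact ⟨by linarith, by linarith⟩)
    (by
      rw [hint _ (by fun_prop)]
      ring)
  have h3 := hs.mgf_le l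
  unfold mgf at h3
  rw [hint _ (by fun_prop)] at h3
  have h4 : ((((‖(1 - m) - (-1 - m)‖₊ / 2) ^ 2 : NNReal)) : ℝ) = 1 := by
    have : (1 - m) - (-1 - m) = 2 := by ring
    rw [this]
    simp
  rw [h4] at h3
  calc _ = (1 + m) / 2 * Real.exp (l * (1 - m)) + (1 - m) / 2 * Real.exp (l * (-1 - m)) := by
        rw [Real.cosh_eq, Real.sinh_eq, show l * (1 - m) = -l * m + l by ring,
          show l * (-1 - m) = -l * m + -l by ring, Real.exp_add, Real.exp_add]
        ring
    _ ≤ _ := h3
    _ = _ := by rw [one_mul]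

end W135.PK
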