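import Pool.Agent.W841.PK.Num

set_option autoImplicit false

namespace W135.PK

open Finset W841.PK MeasureTheory
open scoped Classical

noncomputable section

/-- rescaled Gaussian density -/
def gam (z : ℝ) : ℝ := gd (z / 32) / 32

theorem gd_nonneg (x : ℝ) : 0 ≤ gd x := by unfold gd; positivity

theorem gam_nonneg (x : ℝ) : 0 ≤ gam x := by unfold gam; exact div_nonneg (gd_nonneg _) (by norm_num)

theorem gd_neg (x : ℝ) : gd (-x) = gd x := by unfold gd; rw [neg_sq]

theorem gd_cont : Continuous gd := by unfold gd; fun_prop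

theorem gam_cont : Continuous gam := by
  unfold gam; exact (gd_cont.comp (continuous_id.div_const 32)).div_const 32

theorem gd_hasDeriv (x : ℝ) : HasDerivAt gd (-x * gd x) x := by
  unfold gd
  have h1 : HasDerivAt (fun x : ℝ => -x ^ 2 / 2) (-x) x := by
    refine (((hasDerivAt_id' x).pow 2).neg.div_const 2).congr_deriv ?_
    simp; ring
  refine ((h1.exp).div_const (√(2 * Real.pi))).congr_deriv ?_
  ring

theorem gam_hasDeriv (z : ℝ) : HasDerivAt gam (-(z / 32) * gd (z / 32) / 32 ^ 2) z := by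
  unfold gam
  have h1 : HasDerivAt (fun z : ℝ => z / 32) (1 / 32) z := (hasDerivAt_id z).div_const 32
  refine (((gd_hasDeriv (z / 32)).comp z h1).div_const 32).congr_deriv ?_
  ring

theorem gam_hasDeriv2 (z : ℝ) : HasDerivAt (fun z => -(z / 32) * gd (z / 32) / 32 ^ 2)
    (((z / 32) ^ 2 - 1) * gd (z / 32) / 32 ^ 3) z := by
  have h1 : HasDerivAt (fun z : ℝ => z / 32) (1 / 32) z := (hasDerivAt_id z).div_const 32
  have h2 := (gd_hasDeriv (z / 32)).comp z h1
  refine ((h1.neg.mul h2).div_const (32 ^ 2)).congr_deriv ?_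
  simp only [Function.comp, Pi.neg_apply]
  ring

/-- chord inequality -/
theorem chord (f f' f'' : ℝ → ℝ) (hf : ∀ x, HasDerivAt f (f' x) x)
    (hf' : ∀ x, HasDerivAt f' (f'' x) x) (M z s : ℝ) (hM : 0 ≤ M)
    (h : ∀ x ∈ Set.Icc (z - 1) z, -M ≤ f'' x) (hs0 : 0 ≤ s) (hs1 : s ≤ 1) :
    f (z - s) ≤ (1 - s) * f z + s * f (z - 1) + M / 8 := by
  have hc : ConvexOn ℝ (Set.Icc (z - 1) z) (fun x => f x + M * (x - z) ^ 2 / 2) := by
    have d1 : ∀ x, HasDerivAt (fun x => f x + M * (x - z) ^ 2 / 2) (f' x + M * (x - z)) x := by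
      intro x
      have h1 : HasDerivAt (fun x : ℝ => M * (x - z) ^ 2 / 2) (M * (x - z)) x := by
        refine (((((hasDerivAt_id' x).sub_const z).pow 2).const_mul M).div_const 2).congr_deriv ?_
        simp; ring
      exact (hf x).add h1
    have d2 : ∀ x, HasDerivAt (fun x => f' x + M * (x - z)) (f'' x + M) x := by
      intro x
      have h1 : HasDerivAt (fun x : ℝ => M * (x - z)) M x := by
        have := ((hasDerivAt_id x).sub_const z).const_mul M
        simpa using this
      exact (hf' x).add h1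
    apply convexOn_of_hasDerivWithinAt2_nonneg (convex_Icc _ _)
      (f' := fun x => f' x + M * (x - z)) (f'' := fun x => f'' x + M)
    · exact fun x _ => (d1 x).continuousAt.continuousWithinAt
    · exact fun x _ => (d1 x).hasDerivWithinAt
    · exact fun x _ => (d2 x).hasDerivWithinAt
    · intro x hx
      have := h x (interior_subset hx)
      linarith
  have h2 := hc.2 (⟨by linarith, le_rfl⟩ : z ∈ Set.Icc (z - 1) z)
    (⟨le_rfl, by linarith⟩ : z - 1 ∈ Set.Icc (z - 1) z) (by linarith : 0 ≤ 1 - s) hs0 (by ring)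
  simp only [smul_eq_mul] at h2
  rw [show (1 - s) * z + s * (z - 1) = z - s by ring] at h2
  have h3 : M * (s * (1 - s)) ≤ M * (1 / 4) :=
    mul_le_mul_of_nonneg_left (by nlinarith [sq_nonneg (2 * s - 1)]) hM
  nlinarith

theorem pl_one (δ : ℝ) (hδ : 0 < δ) (A : ℤ → ℝ) (u : ℝ) : pl δ A (u * δ) = pl 1 A u := by
  unfold pl
  rw [mul_div_assoc, div_self hδ.ne', mul_one, div_one]

theorem pl_meas (A : ℤ → ℝ) : Measurable (pl 1 A) := by
  unfold pl
  simp only [div_one]
  have h1 : Measurable (fun y : ℝ => A ⌊y⌋) :=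
    (measurable_from_top (f := A)).comp Int.measurable_floor
  have h2 : Measurable (fun y : ℝ => A (⌊y⌋ + 1)) :=
    (measurable_from_top (f := fun k : ℤ => A (k + 1))).comp Int.measurable_floor
  have h3 : Measurable (fun y : ℝ => ((⌊y⌋ : ℤ) : ℝ)) :=
    (measurable_from_top (f := fun k : ℤ => (k : ℝ))).comp Int.measurable_floor
  exact h1.add ((measurable_id.sub h3).mul (h2.sub h1))

theorem pl_eq (A : ℤ → ℝ) (u : ℝ) :
    pl 1 A u = (1 - Int.fract u) * A ⌊u⌋ + Int.fract u * A (⌊u⌋ + 1) := by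
  unfold pl
  simp only [div_one]
  rw [Int.self_sub_floor]
  ring

theorem pl_mem (A : ℤ → ℝ) (hA : ∀ i, 0 ≤ A i ∧ A i ≤ 1) (u : ℝ) :
    0 ≤ pl 1 A u ∧ pl 1 A u ≤ 1 := by
  rw [pl_eq]
  have h1 := Int.fract_nonneg u
  have h2 := (Int.fract_lt_one u).le
  have h3 := hA ⌊u⌋
  have h4 := hA (⌊u⌋ + 1)
  constructor
  · have := mul_nonneg (by linarith : 0 ≤ 1 - Int.fract u) h3.1
    have := mul_nonneg h1 h4.1
    linarith
  · have h5 := mul_le_mul_of_nonneg_left h3.2 (by linarith : 0 ≤ 1 - Int.fract u)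
    have h6 := mul_le_mul_of_nonneg_left h4.2 h1
    linarith

theorem gam_int (hg : S_Gauss) : Integrable gam := by
  obtain ⟨_, _, _, _, _, _, _, h, _⟩ := hg
  exact (h.comp_div (by norm_num : (32 : ℝ) ≠ 0)).div_const 32

theorem pl_gam_int (hg : S_Gauss) (A : ℤ → ℝ) (hA : ∀ i, 0 ≤ A i ∧ A i ≤ 1) (y : ℝ) :
    Integrable (fun u => pl 1 A u * gam (u - y)) := by
  have h1 : Integrable (fun u => gam (u - y)) := (gam_int hg).comp_sub_right y
  apply h1.bdd_mul (c := 1) (pl_meas A).aestronglyMeasurable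
  filter_upwards with u
  rw [Real.norm_eq_abs, abs_of_nonneg (pl_mem A hA u).1]
  exact (pl_mem A hA u).2

theorem heat_eq (δ : ℝ) (hδ : 0 < δ) (A : ℤ → ℝ) (y : ℝ) :
    heat (pl δ A) ((32 * δ) ^ 2) (y * δ) = ∫ u, pl 1 A u * gam (u - y) := by
  unfold heat
  rw [Real.sqrt_sq (by positivity)]
  have h1 : ∀ x : ℝ, pl δ A (y * δ + 32 * δ * x) * gd x =
      32 * ((fun u => pl 1 A u * gam (u - y)) (32 * x + y)) := by
    intro x
    rw [show y * δ + 32 * δ * x = (32 * x + y) * δ by ring, pl_one δ hδ]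
    simp only [gam]
    rw [show (32 * x + y - y) / 32 = x by ring]
    ring
  simp_rw [h1]
  rw [integral_const_mul]
  have h2 := Measure.integral_comp_mul_left
    (fun v => (fun u => pl 1 A u * gam (u - y)) (v + y)) (32 : ℝ)
  rw [h2, integral_add_right_eq_self (fun u => pl 1 A u * gam (u - y)) y]
  rw [abs_of_pos (by norm_num), smul_eq_mul]
  ring

end

end W135.PK
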