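import Pool.Agent.W135.PK.Interp0

set_option autoImplicit false

namespace W135.PK

open Finset W841.PK MeasureTheory
open scoped Classical

noncomputable section

/-- hat function -/
def hat (u : ℝ) : ℝ := max 0 (1 - |u|)

theorem hat_nonneg (u : ℝ) : 0 ≤ hat u := le_max_left _ _

theorem hat_eq (u : ℝ) : hat u = (Set.Icc (-1 : ℝ) 1).indicator (fun u => 1 - |u|) u := by
  unfold hat
  by_cases h : u ∈ Set.Icc (-1 : ℝ) 1
  · rw [Set.indicator_of_mem h, max_eq_right]
    have := abs_le.mpr h; linarith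
  · rw [Set.indicator_of_notMem h, max_eq_left]
    have : 1 < |u| := by
      by_contra h2
      exact h (abs_le.mp (not_lt.mp h2))
    linarith

theorem hat_int : Integrable hat := by
  have : hat = (Set.Icc (-1 : ℝ) 1).indicator (fun u => 1 - |u|) := funext hat_eq
  rw [this]
  apply IntegrableOn.integrable_indicator _ measurableSet_Icc
  exact (continuous_const.sub continuous_abs).continuousOn.integrableOn_Icc

theorem hat_integral : ∫ u, hat u = 1 := by
  have : hat = (Set.Icc (-1 : ℝ) 1).indicator (fun u => 1 - |u|) := funext hat_eq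
  rw [this, integral_indicator measurableSet_Icc, integral_Icc_eq_integral_Ioc,
    ← intervalIntegral.integral_of_le (by norm_num)]
  have hc : Continuous (fun u : ℝ => 1 - |u|) := continuous_const.sub continuous_abs
  rw [← intervalIntegral.integral_add_adjacent_intervals (hc.intervalIntegrable (-1) 0)
    (hc.intervalIntegrable 0 1)]
  have h1 : ∫ u in (-1 : ℝ)..0, (1 - |u|) = ∫ u in (-1 : ℝ)..0, (1 + u) := by
    apply intervalIntegral.integral_congr
    intro u hu
    rw [Set.uIcc_of_le (by norm_num)] at hu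
    simp only
    rw [abs_of_nonpos hu.2]; ring
  have h2 : ∫ u in (0 : ℝ)..1, (1 - |u|) = ∫ u in (0 : ℝ)..1, (1 - u) := by
    apply intervalIntegral.integral_congr
    intro u hu
    rw [Set.uIcc_of_le (by norm_num)] at hu
    simp only
    rw [abs_of_nonneg hu.1]
  rw [h1, h2]
  rw [intervalIntegral.integral_add (by simp) (by simp), intervalIntegral.integral_sub (by simp) (by simp)]
  simp
  norm_num

/-- left tail of `gam` -/
def tl (z : ℝ) : ℝ := (Set.Iic (-221 : ℝ)).indicator gam z

theorem tl_int (hg : S_Gauss) : Integrable tl := (gam_int hg).indicator measurableSet_Iic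

theorem tl_nonneg (z : ℝ) : 0 ≤ tl z := Set.indicator_nonneg (fun z _ => gam_nonneg z) z

theorem tl_integral (hg : S_Gauss) (ht : S_Tail7) : ∫ z, tl z ≤ 4 / 10 ^ 12 := by
  have h1 : ∫ z, tl z = 32 * ∫ x, tl (32 * x) := by
    rw [Measure.integral_comp_mul_left tl (32 : ℝ), abs_of_pos (by norm_num), smul_eq_mul]
    ring
  have h2 : ∀ x, tl (32 * x) = (Set.Iic (-221 / 32 : ℝ)).indicator (fun x => gd x / 32) x := by
    intro x
    unfold tl
    by_cases h : x ∈ Set.Iic (-221 / 32 : ℝ)
    · rw [Set.indicator_of_mem h, Set.indicator_of_mem]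
      · unfold gam; rw [mul_div_cancel_left₀ _ (by norm_num)]
      · simp only [Set.mem_Iic] at h ⊢; linarith
    · rw [Set.indicator_of_notMem h, Set.indicator_of_notMem]
      simp only [Set.mem_Iic] at h ⊢
      intro h3; apply h; linarith
  rw [h1]
  simp_rw [h2]
  rw [integral_indicator measurableSet_Iic, integral_div]
  have h3 : ∫ u in Set.Iic (-221 / 32 : ℝ), gd u = Ph (-221 / 32) := rfl
  rw [h3]
  have h4 : Ph (-221 / 32) ≤ Ph (-(69 / 10)) := hg.2.2.2.1 (by norm_num)
  have h5 := ht.2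
  linarith

theorem hat_floor (u : ℝ) : hat (u - ⌊u⌋) = 1 - Int.fract u := by
  rw [Int.self_sub_floor]
  unfold hat
  rw [abs_of_nonneg (Int.fract_nonneg u), max_eq_right]
  linarith [(Int.fract_lt_one u).le]

theorem hat_floor1 (u : ℝ) : hat (u - (⌊u⌋ + 1 : ℤ)) = Int.fract u := by
  push_cast
  rw [← sub_sub, Int.self_sub_floor]
  unfold hat
  have h1 := (Int.fract_lt_one u).le
  rw [abs_of_nonpos (by linarith), max_eq_right]
  · ring
  · linarith [Int.fract_nonneg u]

theorem gd_anti {x y : ℝ} (h : |x| ≤ |y|) : gd y ≤ gd x := by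
  unfold gd
  have h2 : x ^ 2 ≤ y ^ 2 := sq_le_sq.mpr h
  gcongr

theorem mmw_nonneg (m : ℤ) : 0 ≤ mmw m := by
  unfold mmw
  apply div_nonneg _ (by norm_num)
  exact mul_nonneg (le_max_left _ _) (gd_nonneg _)

/-- deviation from the chord -/
def Dv (l s u : ℝ) : ℝ := (1 - s) * gam (u - l) + s * gam (u - (l + 1)) - gam (u - (l + s))

theorem Dv_le (l s u : ℝ) (hs0 : 0 ≤ s) (hs1 : s ≤ 1) (m : ℤ)
    (h : ∀ z ∈ Set.Icc (u - l - 1) (u - l), |z + m| ≤ 2) : Dv l s u ≤ mmw m := by
  have h1 := chord (fun x => - gam x) (fun z => - (-(z / 32) * gd (z / 32) / 32 ^ 2))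
    (fun z => - (((z / 32) ^ 2 - 1) * gd (z / 32) / 32 ^ 3)) (fun x => (gam_hasDeriv x).neg)
    (fun x => (gam_hasDeriv2 x).neg) (8 * mmw m) (u - l) s (by have := mmw_nonneg m; linarith)
    (by
      intro z hz
      rw [neg_le_neg_iff]
      have h2 := h z hz
      have e1 : 8 * mmw m = max 0 ((((|m| : ℤ) + 2 : ℝ) / 32) ^ 2 - 1) *
        gd (max 0 (((|m| : ℤ) - 2 : ℝ)) / 32) / (32 ^ 3) := by unfold mmw; ring
      rw [e1]
      apply div_le_div_of_nonneg_right _ (by positivity)
      have hm : (((|m| : ℤ)) : ℝ) = |(m : ℝ)| := by push_cast; rfl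
      rw [hm]
      have h3 : |z| ≤ |(m : ℝ)| + 2 := by
        calc |z| = |(z + m) - m| := by ring_nf
          _ ≤ |z + m| + |(m : ℝ)| := abs_sub _ _
          _ ≤ _ := by linarith
      have h4 : |(m : ℝ)| - 2 ≤ |z| := by
        have : |(m : ℝ)| ≤ |z + m| + |z| := by
          calc |(m : ℝ)| = |(z + m) - z| := by ring_nf
            _ ≤ _ := abs_sub _ _
        linarith
      have h5 : gd (z / 32) ≤ gd (max 0 (|(m : ℝ)| - 2) / 32) := by
        apply gd_anti
        rw [abs_div, abs_div, abs_of_nonneg (le_max_left 0 (|(m : ℝ)| - 2))]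
        apply div_le_div_of_nonneg_right _ (by positivity)
        exact max_le (abs_nonneg z) h4
      have h6 : (z / 32) ^ 2 - 1 ≤ ((|(m : ℝ)| + 2) / 32) ^ 2 - 1 := by
        have : (z / 32) ^ 2 ≤ ((|(m : ℝ)| + 2) / 32) ^ 2 := by
          rw [← sq_abs (z / 32)]
          apply pow_le_pow_left₀ (abs_nonneg _)
          rw [abs_div]
          have : |(32 : ℝ)| = 32 := by norm_num
          rw [this]
          apply div_le_div_of_nonneg_right h3 (by norm_num)
        linarith
      calc ((z / 32) ^ 2 - 1) * gd (z / 32)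
          ≤ max 0 (((|(m : ℝ)| + 2) / 32) ^ 2 - 1) * gd (z / 32) :=
            mul_le_mul_of_nonneg_right (h6.trans (le_max_right _ _)) (gd_nonneg _)
        _ ≤ _ := mul_le_mul_of_nonneg_left h5 (le_max_left _ _)) hs0 hs1
  unfold Dv
  rw [show u - (l + 1) = u - l - 1 by ring, show u - (l + s) = u - l - s by ring]
  linarith

theorem Dv_le_tl (l s u : ℝ) (hs0 : 0 ≤ s) (hs1 : s ≤ 1) (h : 222 < |u - l|) :
    Dv l s u ≤ (1 - s) * (tl (u - l) + tl (-(u - l))) +
      s * (tl (u - (l + 1)) + tl (-(u - (l + 1)))) := by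
  have hgam_neg : ∀ z, gam (-z) = gam z := by
    intro z; unfold gam; rw [neg_div, gd_neg]
  have key : ∀ z : ℝ, 221 ≤ |z| → gam z ≤ tl z + tl (-z) := by
    intro z hz
    rcases le_abs.mp hz with h1 | h1
    · have : tl (-z) = gam z := by
        unfold tl; rw [Set.indicator_of_mem (by simp only [Set.mem_Iic]; linarith), hgam_neg]
      have := tl_nonneg z
      linarith
    · have : tl z = gam z := by
        unfold tl; rw [Set.indicator_of_mem (by simp only [Set.mem_Iic]; linarith)]
      have := tl_nonneg (-z)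
      linarith
  have h1 : 221 ≤ |u - l| := by linarith
  have h2 : 221 ≤ |u - (l + 1)| := by
    have : |u - l| ≤ |u - (l + 1)| + 1 := by
      calc |u - l| = |(u - (l + 1)) + 1| := by ring_nf
        _ ≤ |u - (l + 1)| + |(1 : ℝ)| := abs_add_le _ _
        _ = _ := by norm_num
    linarith
  have h3 := mul_le_mul_of_nonneg_left (key _ h1) (by linarith : 0 ≤ 1 - s)
  have h4 := mul_le_mul_of_nonneg_left (key _ h2) hs0
  have h5 := gam_nonneg (u - (l + s))
  unfold Dv
  linarith

/-- error function -/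
def Er (A : ℤ → ℝ) (l : ℤ) (u : ℝ) : ℝ :=
  ∑ m ∈ Finset.Icc (-224 : ℤ) 224, mmw m * A (l - m) * hat (u - ((l - m : ℤ) : ℝ))

theorem Er_nonneg (A : ℤ → ℝ) (hA : ∀ i, 0 ≤ A i ∧ A i ≤ 1) (l : ℤ) (u : ℝ) : 0 ≤ Er A l u :=
  sum_nonneg fun m _ => mul_nonneg (mul_nonneg (mmw_nonneg m) (hA _).1) (hat_nonneg _)

theorem Er_int (A : ℤ → ℝ) (l : ℤ) : Integrable (Er A l) :=
  integrable_finsetSum _ fun _ _ => (hat_int.comp_sub_right _).const_mul _

theorem Er_integral (A : ℤ → ℝ) (l : ℤ) :
    ∫ u, Er A l u = ∑ m ∈ Finset.Icc (-224 : ℤ) 224, mmw m * A (l - m) := by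
  unfold Er
  rw [integral_finsetSum _ fun _ _ => (hat_int.comp_sub_right _).const_mul _]
  apply sum_congr rfl
  intro m _
  rw [integral_const_mul, integral_sub_right_eq_self (μ := volume) hat, hat_integral, mul_one]

theorem Er_ge (A : ℤ → ℝ) (hA : ∀ i, 0 ≤ A i ∧ A i ≤ 1) (l : ℤ) (u : ℝ)
    (h1 : -224 ≤ l - ⌊u⌋ - 1) (h2 : l - ⌊u⌋ ≤ 224) :
    mmw (l - ⌊u⌋) * A ⌊u⌋ * (1 - Int.fract u) +
      mmw (l - (⌊u⌋ + 1)) * A (⌊u⌋ + 1) * Int.fract u ≤ Er A l u := by
  have h3 : ∑ m ∈ ({l - ⌊u⌋, l - (⌊u⌋ + 1)} : Finset ℤ),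
      mmw m * A (l - m) * hat (u - ((l - m : ℤ) : ℝ)) ≤ Er A l u := by
    apply sum_le_sum_of_subset_of_nonneg
    · intro m hm
      rw [mem_insert, mem_singleton] at hm
      rw [Finset.mem_Icc]
      omega
    · exact fun m _ _ => mul_nonneg (mul_nonneg (mmw_nonneg m) (hA _).1) (hat_nonneg _)
  rw [sum_pair (by omega), sub_sub_cancel, sub_sub_cancel, hat_floor, hat_floor1] at h3
  exact h3

theorem interplow (_hp : S_Pl) (hg : S_Gauss) (ht : S_Tail7) : S_InterpLow := by
  intro δ A l s hδ hA hs0 hs1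
  rw [heat_eq δ hδ A (l + s), heat_eq δ hδ A l, heat_eq δ hδ A (l + 1)]
  have hpt : ∀ u, (1 - s) * (pl 1 A u * gam (u - l)) + s * (pl 1 A u * gam (u - (l + 1))) ≤
      pl 1 A u * gam (u - (l + s)) +
      ((1 - s) * Er A l u + s * Er A (l + 1) u +
        ((1 - s) * (tl (u - l) + tl (-(u - l))) +
      s * (tl (u - (l + 1)) + tl (-(u - (l + 1)))))) := by
    intro u
    obtain ⟨hF0, hF1⟩ := pl_mem A hA u
    have hE0 := mul_nonneg (by linarith : 0 ≤ 1 - s) (Er_nonneg A hA l u)
    have hE1 := mul_nonneg hs0 (Er_nonneg A hA (l + 1) u)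
    have hT0 := mul_nonneg (by linarith : 0 ≤ 1 - s)
      (add_nonneg (tl_nonneg (u - l)) (tl_nonneg (-(u - l))))
    have hT1 := mul_nonneg hs0 (add_nonneg (tl_nonneg (u - (l + 1))) (tl_nonneg (-(u - (l + 1)))))
    have e1 : pl 1 A u * Dv l s u = (1 - s) * (pl 1 A u * gam (u - l)) +
        s * (pl 1 A u * gam (u - (l + 1))) - pl 1 A u * gam (u - (l + s)) := by
      unfold Dv; ring
    by_cases hu : 222 < |u - l|
    · have h1 := Dv_le_tl l s u hs0 hs1 hu
      have h2 := mul_le_mul_of_nonneg_left h1 hF0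
      have h3 : pl 1 A u * ((1 - s) * (tl (u - l) + tl (-(u - l))) +
        s * (tl (u - (l + 1)) + tl (-(u - (l + 1))))) ≤ (1 - s) * (tl (u - l) + tl (-(u - l))) +
        s * (tl (u - (l + 1)) + tl (-(u - (l + 1)))) :=
        mul_le_of_le_one_left (add_nonneg hT0 hT1) hF1
      linarith
    · have hu' := abs_le.mp (not_lt.mp hu)
      have hf1 := Int.floor_le u
      have hf2 := Int.lt_floor_add_one u
      have hk1 : l - 223 < ⌊u⌋ := by
        have : ((l - 223 : ℤ) : ℝ) < (⌊u⌋ : ℝ) := by push_cast; linarith [hu'.1]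
        exact_mod_cast this
      have hk2 : ⌊u⌋ ≤ l + 222 := by
        have : ((⌊u⌋ : ℤ) : ℝ) ≤ ((l + 222 : ℤ) : ℝ) := by push_cast; linarith [hu'.2]
        exact_mod_cast this
      have hD : ∀ m : ℤ, (u - l - 1 + m) ∈ Set.Icc (-2 : ℝ) 1 → Dv l s u ≤ mmw m := by
        intro m hm
        apply Dv_le l s u hs0 hs1 m
        intro z hz
        rw [abs_le]
        constructor
        · linarith [hz.1, hm.1]
        · linarith [hz.2, hm.2]
      have d1 : Dv l s u ≤ mmw (l - ⌊u⌋) := by
        apply hD; push_cast; constructor <;> linarith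
      have d2 : Dv l s u ≤ mmw (l - (⌊u⌋ + 1)) := by
        apply hD; push_cast; constructor <;> linarith
      have d3 : Dv l s u ≤ mmw (l + 1 - ⌊u⌋) := by
        apply hD; push_cast; constructor <;> linarith
      have d4 : Dv l s u ≤ mmw (l + 1 - (⌊u⌋ + 1)) := by
        apply hD; push_cast; constructor <;> linarith
      have g1 := Er_ge A hA l u (by omega) (by omega)
      have g2 := Er_ge A hA (l + 1) u (by omega) (by omega)
      have hf0 := Int.fract_nonneg u
      have hf1 : 0 ≤ 1 - Int.fract u := by linarith [(Int.fract_lt_one u).le]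
      have p1 := mul_nonneg (hA ⌊u⌋).1 hf1
      have p2 := mul_nonneg (hA (⌊u⌋ + 1)).1 hf0
      have q1 : pl 1 A u * Dv l s u ≤ Er A l u := by
        rw [pl_eq]
        have := mul_le_mul_of_nonneg_right d1 p1
        have := mul_le_mul_of_nonneg_right d2 p2
        linarith
      have q2 : pl 1 A u * Dv l s u ≤ Er A (l + 1) u := by
        rw [pl_eq]
        have := mul_le_mul_of_nonneg_right d3 p1
        have := mul_le_mul_of_nonneg_right d4 p2
        linarith
      have q3 := mul_le_mul_of_nonneg_left q1 (by linarith : 0 ≤ 1 - s)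
      have q4 := mul_le_mul_of_nonneg_left q2 hs0
      linarith
  have i1 := pl_gam_int hg A hA (l + s)
  have i2 := pl_gam_int hg A hA l
  have i3 := pl_gam_int hg A hA (l + 1)
  have j1 := Er_int A l
  have j2 := Er_int A (l + 1)
  have k1 : Integrable (fun u => tl (u - l)) := (tl_int hg).comp_sub_right (l : ℝ)
  have k2 : Integrable (fun u => tl (-(u - l))) := ((tl_int hg).comp_neg).comp_sub_right (l : ℝ)
  have k3 : Integrable (fun u => tl (u - (l + 1))) := (tl_int hg).comp_sub_right ((l : ℝ) + 1)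
  have k4 : Integrable (fun u => tl (-(u - (l + 1)))) :=
    ((tl_int hg).comp_neg).comp_sub_right ((l : ℝ) + 1)
  have v1 : ∫ u, tl (u - l) = ∫ u, tl u := integral_sub_right_eq_self (μ := volume) tl (l : ℝ)
  have v3 : ∫ u, tl (u - (l + 1)) = ∫ u, tl u :=
    integral_sub_right_eq_self (μ := volume) tl ((l : ℝ) + 1)
  have v2 : ∫ u, tl (-(u - l)) = ∫ u, tl u := by
    rw [integral_sub_right_eq_self (μ := volume) (fun u => tl (-u)) (l : ℝ),
      integral_neg_eq_self tl volume]
  have v4 : ∫ u, tl (-(u - (l + 1))) = ∫ u, tl u := by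
    rw [integral_sub_right_eq_self (μ := volume) (fun u => tl (-u)) ((l : ℝ) + 1),
      integral_neg_eq_self tl volume]
  have a1 : Integrable (fun u => (1 - s) * (pl 1 A u * gam (u - l)) +
      s * (pl 1 A u * gam (u - (l + 1)))) := (i2.const_mul _).add (i3.const_mul _)
  have a2 : Integrable (fun u => (1 - s) * Er A l u + s * Er A (l + 1) u) :=
    (j1.const_mul _).add (j2.const_mul _)
  have a3 : Integrable (fun u => tl (u - l) + tl (-(u - l))) := k1.add k2
  have a4 : Integrable (fun u => tl (u - (l + 1)) + tl (-(u - (l + 1)))) := k3.add k4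
  have a5 : Integrable (fun u => (1 - s) * (tl (u - l) + tl (-(u - l))) +
      s * (tl (u - (l + 1)) + tl (-(u - (l + 1))))) := (a3.const_mul _).add (a4.const_mul _)
  have a6 : Integrable (fun u => (1 - s) * Er A l u + s * Er A (l + 1) u +
        ((1 - s) * (tl (u - l) + tl (-(u - l))) +
      s * (tl (u - (l + 1)) + tl (-(u - (l + 1)))))) := a2.add a5
  have a7 : Integrable (fun u => pl 1 A u * gam (u - (l + s)) +
      ((1 - s) * Er A l u + s * Er A (l + 1) u +
        ((1 - s) * (tl (u - l) + tl (-(u - l))) +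
      s * (tl (u - (l + 1)) + tl (-(u - (l + 1))))))) := i1.add a6
  have hI := integral_mono a1 a7 hpt
  rw [integral_add (i2.const_mul _) (i3.const_mul _), integral_const_mul, integral_const_mul,
    integral_add i1 a6, integral_add a2 a5, integral_add (j1.const_mul _) (j2.const_mul _),
    integral_const_mul, integral_const_mul, integral_add (a3.const_mul _) (a4.const_mul _),
    integral_const_mul, integral_const_mul, integral_add k1 k2, integral_add k3 k4,
    v1, v2, v3, v4, Er_integral, Er_integral] at hI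
  have hT := tl_integral hg ht
  set T := ∫ u, tl u with hTdef
  have hfin : (1 - s) * (T + T) + s * (T + T) ≤ 1 / 10 ^ 11 := by
    have : (1 - s) * (T + T) + s * (T + T) = 2 * T := by ring
    rw [this]
    linarith
  linarith

end

end W135.PK
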