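import Pool.Agent.W135.PK.Interp0

set_option autoImplicit false

namespace W135.PK

open Finset W841.PK MeasureTheory
open scoped Classical

noncomputable section

/-- cell indicator -/
def cell (k : ℤ) (u : ℝ) : ℝ := (Set.Ico (k : ℝ) (k + 1)).indicator (fun _ => (1 : ℝ)) u

theorem cell_int (k : ℤ) : Integrable (cell k) := by
  unfold cell
  apply IntegrableOn.integrable_indicator _ measurableSet_Ico
  exact integrableOn_const (by simp) (by simp)

theorem cell_integral (k : ℤ) : ∫ u, cell k u = 1 := by
  unfold cell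
  rw [integral_indicator measurableSet_Ico]
  simp

theorem cell_nonneg (k : ℤ) (u : ℝ) : 0 ≤ cell k u := by
  unfold cell; exact Set.indicator_nonneg (fun _ _ => by norm_num) u

theorem cell_one (k : ℤ) (u : ℝ) (h : ⌊u⌋ = k) : cell k u = 1 := by
  unfold cell
  rw [Set.indicator_of_mem]
  rw [Int.floor_eq_iff] at h
  exact h

theorem interpup (hp : S_Pl) (hg : S_Gauss) : S_InterpUp := by
  intro δ A l s hδ hA hA01 hs0 hs1
  rw [heat_eq δ hδ A (l + s), heat_eq δ hδ A l, heat_eq δ hδ A (l + 1)]
  set c : ℝ := 1 / (20 * 32 ^ 3) with hc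
  have hc0 : 0 ≤ c := by rw [hc]; positivity
  have hE : Integrable (fun u => ∑ m ∈ Finset.Icc (-32 : ℤ) 32, A (l - m) * cell (l - m) u) :=
    integrable_finsetSum _ (fun m _ => (cell_int (l - m)).const_mul _)
  have hEi : ∫ u, ∑ m ∈ Finset.Icc (-32 : ℤ) 32, A (l - m) * cell (l - m) u =
      ∑ m ∈ Finset.Icc (-32 : ℤ) 32, A (l - m) := by
    rw [integral_finsetSum _ (fun m _ => (cell_int (l - m)).const_mul _)]
    apply sum_congr rfl
    intro m _
    rw [integral_const_mul, cell_integral, mul_one]
  have hpt : ∀ u, pl 1 A u * gam (u - (l + s)) ≤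
      (1 - s) * (pl 1 A u * gam (u - l)) + s * (pl 1 A u * gam (u - (l + 1))) +
        c * ∑ m ∈ Finset.Icc (-32 : ℤ) 32, A (l - m) * cell (l - m) u := by
    intro u
    obtain ⟨hF0, hF1⟩ := pl_mem A hA01 u
    have hE0 : 0 ≤ ∑ m ∈ Finset.Icc (-32 : ℤ) 32, A (l - m) * cell (l - m) u :=
      sum_nonneg fun m _ => mul_nonneg (hA01 _).1 (cell_nonneg _ _)
    by_cases hu : (l : ℝ) - 32 < u ∧ u < l + 33
    · -- inside
      have h1 := chord gam _ _ gam_hasDeriv gam_hasDeriv2 (2 / 5 / 32 ^ 3) (u - l) s (by positivity)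
        (by
          intro x _
          have h2 := (hg.2.1 (x / 32)).2
          have h3 := gd_nonneg (x / 32)
          rw [← neg_div, div_le_div_iff_of_pos_right (by positivity)]
          nlinarith [mul_nonneg (sq_nonneg (x / 32)) h3]) hs0 hs1
      rw [show u - (l : ℝ) - s = u - (l + s) by ring, show u - (l : ℝ) - 1 = u - (l + 1) by ring] at h1
      have h2 : pl 1 A u ≤ ∑ m ∈ Finset.Icc (-32 : ℤ) 32, A (l - m) * cell (l - m) u := by
        have hfl : l - 32 ≤ ⌊u⌋ ∧ ⌊u⌋ < l + 33 := by
          constructor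
          · rw [Int.le_floor]; push_cast; linarith [hu.1]
          · rw [Int.floor_lt]; push_cast; exact hu.2
        have h3 : l - ⌊u⌋ ∈ Finset.Icc (-32 : ℤ) 32 := by
          rw [Finset.mem_Icc]; omega
        have h4 : A (l - (l - ⌊u⌋)) * cell (l - (l - ⌊u⌋)) u ≤
            ∑ m ∈ Finset.Icc (-32 : ℤ) 32, A (l - m) * cell (l - m) u :=
          single_le_sum (f := fun m => A (l - m) * cell (l - m) u)
            (fun m _ => mul_nonneg (hA01 _).1 (cell_nonneg _ _)) h3
        rw [sub_sub_cancel, cell_one _ _ rfl, mul_one] at h4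
        refine le_trans ?_ h4
        rw [pl_eq]
        have h5 : A (⌊u⌋ + 1) ≤ A ⌊u⌋ := hA (by omega)
        have h6 := mul_le_mul_of_nonneg_left h5 (Int.fract_nonneg u)
        linarith
      have h3 : pl 1 A u * gam (u - (l + s)) ≤ pl 1 A u * ((1 - s) * gam (u - l) +
          s * gam (u - (l + 1)) + 2 / 5 / 32 ^ 3 / 8) := mul_le_mul_of_nonneg_left h1 hF0
      have h4 := mul_le_mul_of_nonneg_left h2 hc0
      have h5 : pl 1 A u * ((1 - s) * gam (u - l) +
          s * gam (u - (l + 1)) + 2 / 5 / 32 ^ 3 / 8) = (1 - s) * (pl 1 A u * gam (u - l)) +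
          s * (pl 1 A u * gam (u - (l + 1))) + c * pl 1 A u := by rw [hc]; ring
      rw [h5] at h3
      exact h3.trans (add_le_add_right h4 _)
    · have h1 := chord gam _ _ gam_hasDeriv gam_hasDeriv2 0 (u - l) s le_rfl
        (by
          intro x hx
          have h3 := gd_nonneg (x / 32)
          rw [neg_zero]
          apply div_nonneg _ (by positivity)
          apply mul_nonneg _ h3
          have h4 : 32 ≤ |x| := by
            rw [le_abs]
            by_cases h5 : (l : ℝ) - 32 < u
            · left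
              have : (l : ℝ) + 33 ≤ u := by
                by_contra h6
                exact hu ⟨h5, lt_of_not_ge h6⟩
              have := hx.1
              linarith
            · right
              have := hx.2
              linarith
          have h5 : (32 : ℝ) ^ 2 ≤ x ^ 2 := by
            rw [← sq_abs x]; exact pow_le_pow_left₀ (by norm_num) h4 2
          rw [div_pow]
          have : (1 : ℝ) ≤ x ^ 2 / 32 ^ 2 := by
            rw [le_div_iff₀ (by norm_num), one_mul]; exact h5
          linarith) hs0 hs1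
      rw [show u - (l : ℝ) - s = u - (l + s) by ring, show u - (l : ℝ) - 1 = u - (l + 1) by ring] at h1
      have h3 : pl 1 A u * gam (u - (l + s)) ≤ pl 1 A u * ((1 - s) * gam (u - l) +
          s * gam (u - (l + 1)) + 0 / 8) := mul_le_mul_of_nonneg_left h1 hF0
      have h4 := mul_nonneg hc0 hE0
      have h5 : pl 1 A u * ((1 - s) * gam (u - l) +
          s * gam (u - (l + 1)) + 0 / 8) = (1 - s) * (pl 1 A u * gam (u - l)) +
          s * (pl 1 A u * gam (u - (l + 1))) := by ring
      rw [h5] at h3
      exact h3.trans (le_add_of_nonneg_right h4)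
  have i1 := pl_gam_int hg A hA01 (l + s)
  have i2 := pl_gam_int hg A hA01 l
  have i3 := pl_gam_int hg A hA01 (l + 1)
  have i4 : Integrable (fun u => (1 - s) * (pl 1 A u * gam (u - l)) +
      s * (pl 1 A u * gam (u - (l + 1)))) := (i2.const_mul (1 - s)).add (i3.const_mul s)
  have i5 : Integrable (fun u => (1 - s) * (pl 1 A u * gam (u - l)) +
      s * (pl 1 A u * gam (u - (l + 1))) +
      c * ∑ m ∈ Finset.Icc (-32 : ℤ) 32, A (l - m) * cell (l - m) u) := i4.add (hE.const_mul c)
  refine (integral_mono i1 i5 hpt).trans (le_of_eq ?_)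
  rw [← hEi, integral_add i4 (hE.const_mul c),
    integral_add (i2.const_mul (1 - s)) (i3.const_mul s), integral_const_mul, integral_const_mul,
    integral_const_mul]

end

end W135.PK
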