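import Pool.Agent.W841.PK.Stm2
import Pool.Agent.W135.PK.Hoeff

set_option autoImplicit false

namespace W135.PK

open Finset W841.PK
open scoped Classical symmDiff

noncomputable section

def tau (n r1 r : ℕ) : ℝ := ∑ i ∈ Ioc r r1, (n : ℝ) / ((i : ℝ) - 1) ^ 2

theorem tau_self (n r : ℕ) : tau n r r = 0 := by simp [tau]

theorem tau_pred (n r1 r : ℕ) (h : r + 1 ≤ r1) :
    tau n r1 r = tau n r1 (r + 1) + n / ((r : ℝ)) ^ 2 := by
  unfold tau
  have : Ioc r r1 = insert (r + 1) (Ioc (r + 1) r1) := by ext i; simp; omega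
  rw [this, sum_insert (by simp)]
  push_cast
  rw [add_sub_cancel_right]
  ring

theorem tau_le (n r r1 : ℕ) (h2 : 2 ≤ r) (h : r ≤ r1) :
    tau n r1 r ≤ n / ((r : ℝ) - 1) - n / ((r1 : ℝ) - 1) := by
  induction r1, h using Nat.le_induction with
  | base => simp [tau_self]
  | succ k hk ih =>
    have e : Ioc r (k + 1) = insert (k + 1) (Ioc r k) := by ext i; simp; omega
    unfold tau at ih ⊢
    rw [e, sum_insert (by simp)]
    push_cast
    rw [add_sub_cancel_right]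
    have hk2 : (2 : ℝ) ≤ k := by exact_mod_cast h2.trans hk
    have : (n : ℝ) / (k : ℝ) ^ 2 ≤ n / ((k : ℝ) - 1) - n / (k : ℝ) := by
      rw [div_sub_div _ _ (by linarith) (by linarith), div_le_div_iff₀ (by positivity)
        (mul_pos (by linarith) (by linarith))]
      have hn : (0 : ℝ) ≤ n := Nat.cast_nonneg n
      have : (n : ℝ) * ((k - 1) * k) ≤ n * k ^ 2 := by
        apply mul_le_mul_of_nonneg_left _ hn
        nlinarith
      calc (n : ℝ) * ((k - 1) * k) ≤ n * k ^ 2 := this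
        _ = _ := by ring
    linarith

variable {n : ℕ}

def Wt (K1 y0 : ℝ) (r1 r2 : ℕ) (v : Fin n) (S : Finset (Fin n)) (ρ : Rule n) (t : ℕ)
    (G : SimpleGraph (Fin n)) : ℝ :=
  if v ∈ RR S ρ t G then
    if r1 < rr S ρ t G then Real.exp (2 * K1 * y0)
    else if r2 ≤ rr S ρ t G ∧
        (∀ j ≤ t, rr S ρ j G = r1 → -y0 ≤ √(n : ℝ) / r1 * Xn S ρ j G v) then
      Real.exp (-(2 * K1 * (√(n : ℝ) / (rr S ρ t G : ℝ) * Xn S ρ t G v)) -
        2 * K1 ^ 2 * tau n r1 (rr S ρ t G))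
    else 0
  else 0

theorem Wt_nonneg (K1 y0 : ℝ) (r1 r2 : ℕ) (v : Fin n) (S : Finset (Fin n)) (ρ : Rule n) (t : ℕ)
    (G : SimpleGraph (Fin n)) : 0 ≤ Wt K1 y0 r1 r2 v S ρ t G := by
  unfold Wt
  split_ifs <;> first | exact (Real.exp_pos _).le | exact le_rfl

theorem abs_Xn_le (S : Finset (Fin n)) (ρ : Rule n) (t : ℕ) (G : SimpleGraph (Fin n))
    (v : Fin n) : |Xn S ρ t G v| ≤ rr S ρ t G := by
  unfold Xn rr
  calc |∑ b ∈ NN S ρ t G, ee G v b| ≤ ∑ b ∈ NN S ρ t G, |ee G v b| := abs_sum_le_sum_abs _ _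
    _ ≤ ∑ b ∈ NN S ρ t G, (1 : ℝ) := sum_le_sum fun b _ => abs_ee_le G v b
    _ = _ := by simp

/-- same values for graphs with the same history -/
theorem meas_data (hm : S_MeasP) {S : Finset (Fin n)} {ρ : Rule n} {t : ℕ}
    {G G' : SimpleGraph (Fin n)} (hρ : IsRule ρ) (h : SameHist S ρ t G G') {v : Fin n}
    (hv : v ∈ S) :
    RR S ρ t G = RR S ρ t G' ∧ rr S ρ t G = rr S ρ t G' ∧
      (v ∈ RR S ρ t G → Xn S ρ t G v = Xn S ρ t G' v) := by
  obtain ⟨_, h1, _, _, _, _, h2, _⟩ := hm n S ρ t G G' hρ h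
  refine ⟨h1, ?_, ?_⟩
  · unfold rr NN; rw [h1]
  · intro hvr
    have := h2 v hvr
    unfold Xs at this
    rwa [if_pos hv, if_pos hv] at this

theorem Wt_meas (hm : S_MeasP) (K1 y0 : ℝ) (r1 r2 : ℕ) {v : Fin n} {S : Finset (Fin n)}
    (hv : v ∈ S) {ρ : Rule n} (hρ : IsRule ρ) (t : ℕ) :
    Meas S ρ t (Wt K1 y0 r1 r2 v S ρ t) := by
  intro G G' h
  obtain ⟨h1, h2, h3⟩ := meas_data hm hρ h hv
  unfold Wt
  rw [← h1, ← h2]
  by_cases hvr : v ∈ RR S ρ t G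
  · rw [if_pos hvr, if_pos hvr, ← h3 hvr]
    have hc : (∀ j ≤ t, rr S ρ j G = r1 → -y0 ≤ √(n : ℝ) / r1 * Xn S ρ j G v) ↔
        (∀ j ≤ t, rr S ρ j G' = r1 → -y0 ≤ √(n : ℝ) / r1 * Xn S ρ j G' v) := by
      have key : ∀ j ≤ t, rr S ρ j G = rr S ρ j G' ∧ Xn S ρ j G v = Xn S ρ j G' v := by
        intro j hj
        obtain ⟨_, h5, h6⟩ := meas_data hm hρ (h.le hj) hv
        exact ⟨h5, h6 (RR_anti S ρ G hj hvr)⟩
      constructor
      · intro hh j hj hr
        obtain ⟨h5, h6⟩ := key j hj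
        rw [← h6]; exact hh j hj (h5.trans hr)
      · intro hh j hj hr
        obtain ⟨h5, h6⟩ := key j hj
        rw [h6]; exact hh j hj (h5.symm.trans hr)
    simp only [hc]
  · rw [if_neg hvr, if_neg hvr]

/-- the drift situation -/
def DD (r1 r2 : ℕ) (S : Finset (Fin n)) (ρ : Rule n) (t : ℕ) (G : SimpleGraph (Fin n)) : Prop :=
  rr S ρ t G ≤ r1 ∧ r2 + 1 ≤ rr S ρ t G

/-- `lam` -/
def lm (K1 : ℝ) (S : Finset (Fin n)) (ρ : Rule n) (t : ℕ) (G : SimpleGraph (Fin n)) : ℝ :=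
  2 * K1 * (√(n : ℝ) / ((rr S ρ t G : ℝ) - 1))

def mm (S : Finset (Fin n)) (ρ : Rule n) (t : ℕ) (G : SimpleGraph (Fin n)) (v : Fin n) : ℝ :=
  Xn S ρ t G v / rr S ρ t G

/-- pointwise step bound -/
theorem step_pt (hb : S_Basic) (K1 y0 : ℝ) (hK : 0 ≤ K1) (r1 r2 : ℕ) (h2 : 2 ≤ r2) {v : Fin n}
    {S : Finset (Fin n)} (hv : v ∈ S) {ρ : Rule n} (hρ : IsRule ρ) (t : ℕ) (htn : t < n)
    (G : SimpleGraph (Fin n)) :
    Wt K1 y0 r1 r2 v S ρ (t + 1) G + (if ww S ρ t G = v then Wt K1 y0 r1 r2 v S ρ t G else 0) ≤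
    Wt K1 y0 r1 r2 v S ρ t G + (if NP S ρ t G ∧ v ∈ RR S ρ t G then
      (if DD r1 r2 S ρ t G then Wt K1 y0 r1 r2 v S ρ t G *
        (Real.exp (lm K1 S ρ t G * (ee G v (ww S ρ t G) - mm S ρ t G v)) *
          Real.exp (-(lm K1 S ρ t G ^ 2 / 2)) - 1) else 0) else 0) := by
  obtain ⟨_, hmem, hns, hs, _⟩ := hb n S ρ t G hρ
  have hmem := hmem htn
  by_cases hw : ww S ρ t G = v
  · -- v removed
    have h1 : v ∉ RR S ρ (t + 1) G := by
      rw [RR_succ, hw]; simp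
    have h3 : ¬ NP S ρ t G := by
      intro h; exact h.1 (by rw [hw]; exact hv)
    have h4 : Wt K1 y0 r1 r2 v S ρ (t + 1) G = 0 := by
      unfold Wt; rw [if_neg h1]
    rw [if_pos hw, h4, if_neg (fun h => h3 h.1)]
    linarith
  rw [if_neg hw, add_zero]
  by_cases hvr : v ∈ RR S ρ t G
  swap
  · have h1 : v ∉ RR S ρ (t + 1) G := by
      rw [RR_succ]; intro h; exact hvr (mem_of_mem_erase h)
    have h4 : Wt K1 y0 r1 r2 v S ρ (t + 1) G = 0 := by
      unfold Wt; rw [if_neg h1]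
    rw [h4, if_neg (fun h => hvr h.2), add_zero]
    exact Wt_nonneg _ _ _ _ _ _ _ _ _
  have hvr' : v ∈ RR S ρ (t + 1) G := by
    rw [RR_succ]; exact mem_erase.mpr ⟨fun h => hw h.symm, hvr⟩
  by_cases hwS : ww S ρ t G ∈ S
  · -- a planted vertex is removed
    have hNP : ¬ NP S ρ t G := fun h => h.1 hwS
    rw [if_neg (fun h => hNP h.1), add_zero]
    obtain ⟨_, _, hNN, hrr, _⟩ := hs htn hwS
    have hX : Xn S ρ (t + 1) G v = Xn S ρ t G v := by unfold Xn; rw [hNN]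
    unfold Wt
    rw [if_pos hvr, if_pos hvr', hrr, hX]
    by_cases c1 : r1 < rr S ρ t G
    · rw [if_pos c1, if_pos c1]
    · rw [if_neg c1, if_neg c1]
      by_cases c2 : r2 ≤ rr S ρ t G ∧
        (∀ j ≤ t + 1, rr S ρ j G = r1 → -y0 ≤ √(n : ℝ) / r1 * Xn S ρ j G v)
      · rw [if_pos c2, if_pos ⟨c2.1, fun j hj => c2.2 j (by omega)⟩]
      · rw [if_neg c2]
        split_ifs
        · exact (Real.exp_pos _).le
        · exact le_rfl
  · have hNP : NP S ρ t G := ⟨hwS, hmem⟩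
    rw [if_pos ⟨hNP, hvr⟩]
    obtain ⟨hwN, hNN, hrr, _⟩ := hns htn hwS
    have hX : Xn S ρ (t + 1) G v = Xn S ρ t G v - ee G v (ww S ρ t G) := by
      unfold Xn; rw [hNN]
      rw [eq_sub_iff_add_eq, sum_erase_add _ _ hwN]
    by_cases c1 : r1 < rr S ρ t G
    · -- before the start
      have hD : ¬ DD r1 r2 S ρ t G := by
        intro h; have := h.1; omega
      rw [if_neg hD, add_zero]
      have hW : Wt K1 y0 r1 r2 v S ρ t G = Real.exp (2 * K1 * y0) := by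
        unfold Wt; rw [if_pos hvr, if_pos c1]
      rw [hW]
      unfold Wt
      rw [if_pos hvr']
      by_cases c2 : r1 < rr S ρ (t + 1) G
      · rw [if_pos c2]
      · rw [if_neg c2]
        have hr1 : rr S ρ (t + 1) G = r1 := by omega
        split_ifs with c3
        · rw [hr1, tau_self]
          apply Real.exp_le_exp.mpr
          have h5 := c3.2 (t + 1) le_rfl hr1
          have h6 : K1 * (-y0) ≤ K1 * (√(n : ℝ) / r1 * Xn S ρ (t + 1) G v) :=
            mul_le_mul_of_nonneg_left h5 hK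
          linarith
        · exact (Real.exp_pos _).le
    · by_cases hD : DD r1 r2 S ρ t G
      · rw [if_pos hD]
        obtain ⟨hD1, hD2⟩ := hD
        by_cases c2 : ∀ j ≤ t, rr S ρ j G = r1 → -y0 ≤ √(n : ℝ) / r1 * Xn S ρ j G v
        · have c2' : ∀ j ≤ t + 1, rr S ρ j G = r1 → -y0 ≤ √(n : ℝ) / r1 * Xn S ρ j G v := by
            intro j hj hjr
            rcases Nat.lt_succ_iff_lt_or_eq.mp (Nat.lt_succ_of_le hj) with h | h
            · exact c2 j (by omega) hjr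
            · subst h; omega
          have hW : Wt K1 y0 r1 r2 v S ρ t G =
              Real.exp (-(2 * K1 * (√(n : ℝ) / (rr S ρ t G : ℝ) * Xn S ρ t G v)) -
                2 * K1 ^ 2 * tau n r1 (rr S ρ t G)) := by
            unfold Wt; rw [if_pos hvr, if_neg c1, if_pos ⟨by omega, c2⟩]
          have hW' : Wt K1 y0 r1 r2 v S ρ (t + 1) G =
              Real.exp (-(2 * K1 * (√(n : ℝ) / (rr S ρ (t + 1) G : ℝ) * Xn S ρ (t + 1) G v)) -
                2 * K1 ^ 2 * tau n r1 (rr S ρ (t + 1) G)) := by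
            unfold Wt; rw [if_pos hvr', if_neg (by omega), if_pos ⟨by omega, c2'⟩]
          have key : Wt K1 y0 r1 r2 v S ρ (t + 1) G = Wt K1 y0 r1 r2 v S ρ t G *
              (Real.exp (lm K1 S ρ t G * (ee G v (ww S ρ t G) - mm S ρ t G v)) *
                Real.exp (-(lm K1 S ρ t G ^ 2 / 2))) := by
            rw [hW, hW', ← Real.exp_add, ← Real.exp_add]
            congr 1
            rw [tau_pred n r1 (rr S ρ (t + 1) G) (by omega), hrr, hX]
            have h7 : ((rr S ρ (t + 1) G : ℕ) : ℝ) = (rr S ρ t G : ℝ) - 1 := by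
              rw [← hrr]; push_cast; ring
            rw [h7]
            unfold lm mm
            have h8 : (3 : ℝ) ≤ (rr S ρ t G : ℝ) := by exact_mod_cast (by omega : 3 ≤ rr S ρ t G)
            have h9 : (rr S ρ t G : ℝ) - 1 ≠ 0 := by linarith
            have h10 : (rr S ρ t G : ℝ) ≠ 0 := by linarith
            have h11 : √(n : ℝ) ^ 2 = n := Real.sq_sqrt (Nat.cast_nonneg n)
            have h12 : (n : ℝ) / ((rr S ρ t G : ℝ) - 1) ^ 2 =
              (√(n : ℝ) / ((rr S ρ t G : ℝ) - 1)) ^ 2 := by rw [div_pow, h11]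
            rw [h12]
            field_simp
            ring
          rw [key]
          linarith
        · have hW' : Wt K1 y0 r1 r2 v S ρ (t + 1) G = 0 := by
            unfold Wt; rw [if_pos hvr', if_neg (by omega), if_neg]
            intro h
            exact c2 (fun j hj => h.2 j (by omega))
          have hW : Wt K1 y0 r1 r2 v S ρ t G = 0 := by
            unfold Wt; rw [if_pos hvr, if_neg c1, if_neg]
            intro h
            exact c2 h.2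
          rw [hW, hW']; simp
      · rw [if_neg hD, add_zero]
        have hW' : Wt K1 y0 r1 r2 v S ρ (t + 1) G = 0 := by
          unfold Wt
          have h3 : ¬ r2 + 1 ≤ rr S ρ t G := fun h => hD ⟨by omega, h⟩
          rw [if_pos hvr', if_neg (by omega), if_neg]
          intro h
          have := h.1
          omega
        rw [hW']
        exact Wt_nonneg _ _ _ _ _ _ _ _ _

theorem ee_pm (G : SimpleGraph (Fin n)) {a b : Fin n} (h : a ≠ b) : ee G a b = 1 ∨ ee G a b = -1 := by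
  unfold ee; rw [if_neg h]; split_ifs
  · left; rfl
  · right; rfl

theorem exp_pm (l m e : ℝ) (he : e = 1 ∨ e = -1) :
    Real.exp (l * (e - m)) = Real.exp (-l * m) * (Real.cosh l + e * Real.sinh l) := by
  rw [show l * (e - m) = -l * m + l * e by ring, Real.exp_add]
  congr 1
  rcases he with rfl | rfl
  · rw [mul_one, one_mul, Real.cosh_add_sinh]
  · rw [show l * -1 = -l by ring, show Real.cosh l + -1 * Real.sinh l = Real.cosh l - Real.sinh l by ring,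
      Real.cosh_sub_sinh]

def phi (K1 y0 : ℝ) (r1 r2 : ℕ) (v : Fin n) (S : Finset (Fin n)) (ρ : Rule n) (t : ℕ)
    (G : SimpleGraph (Fin n)) : ℝ :=
  if DD r1 r2 S ρ t G then Wt K1 y0 r1 r2 v S ρ t G * (Real.exp (-(lm K1 S ρ t G ^ 2 / 2)) *
    Real.exp (-lm K1 S ρ t G * mm S ρ t G v) * Real.sinh (lm K1 S ρ t G) / rr S ρ t G) else 0

theorem lm_nonneg (K1 : ℝ) (hK : 0 ≤ K1) (r1 r2 : ℕ) (S : Finset (Fin n)) (ρ : Rule n) (t : ℕ)
    (G : SimpleGraph (Fin n)) (h : DD r1 r2 S ρ t G) : 0 ≤ lm K1 S ρ t G := by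
  unfold lm
  have : (1 : ℝ) ≤ rr S ρ t G := by exact_mod_cast le_trans (Nat.le_add_left 1 r2) h.2
  have : 0 ≤ (rr S ρ t G : ℝ) - 1 := by linarith
  positivity

theorem drift (hm : S_MeasP) (hn : S_NegDrift) (K1 y0 : ℝ) (hK : 0 ≤ K1) (r1 r2 : ℕ) (h2 : 2 ≤ r2)
    {v : Fin n} {S : Finset (Fin n)} (hv : v ∈ S) {ρ : Rule n} (hρ : IsRule ρ) (t : ℕ) :
    Ex (fun G => if NP S ρ t G ∧ v ∈ RR S ρ t G then
      (if DD r1 r2 S ρ t G then Wt K1 y0 r1 r2 v S ρ t G *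
        (Real.exp (lm K1 S ρ t G * (ee G v (ww S ρ t G) - mm S ρ t G v)) *
          Real.exp (-(lm K1 S ρ t G ^ 2 / 2)) - 1) else 0) else 0) ≤ 0 := by
  have h0 : ∀ G, 0 ≤ phi K1 y0 r1 r2 v S ρ t G := by
    intro G
    unfold phi
    split_ifs with h
    · have h3 := Real.sinh_nonneg_iff.mpr (lm_nonneg K1 hK r1 r2 S ρ t G h)
      have h4 := Wt_nonneg K1 y0 r1 r2 v S ρ t G
      positivity
    · exact le_rfl
  have hmeas : Meas S ρ t (phi K1 y0 r1 r2 v S ρ t) := by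
    intro G G' h
    obtain ⟨h1, h2, h3⟩ := meas_data hm hρ h hv
    have h4 := Wt_meas hm K1 y0 r1 r2 hv hρ t G G' h
    by_cases hvr : v ∈ RR S ρ t G
    · unfold phi DD mm lm
      rw [← h4, ← h2, ← h3 hvr]
    · have h5 : Wt K1 y0 r1 r2 v S ρ t G = 0 := by unfold Wt; rw [if_neg hvr]
      unfold phi
      rw [← h4, h5]; simp
  have hN := hn n S ρ t v (phi K1 y0 r1 r2 v S ρ t) hρ hv h0 hmeas
  have hE : Ex (fun G => if NP S ρ t G ∧ v ∈ RR S ρ t G then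
      phi K1 y0 r1 r2 v S ρ t G * ((rr S ρ t G : ℝ) * ee G v (ww S ρ t G) - Xn S ρ t G v) else 0)
      ≤ 0 := by
    unfold Ex
    exact div_nonpos_of_nonpos_of_nonneg hN card_pos'.le
  refine le_trans (Ex_mono fun G => ?_) hE
  by_cases hc : NP S ρ t G ∧ v ∈ RR S ρ t G
  swap
  · rw [if_neg hc, if_neg hc]
  rw [if_pos hc, if_pos hc]
  unfold phi
  by_cases hD : DD r1 r2 S ρ t G
  swap
  · rw [if_neg hD, if_neg hD]; simp
  rw [if_pos hD, if_pos hD]
  have hne : v ≠ ww S ρ t G := fun h => hc.1.1 (h ▸ hv)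
  rw [exp_pm _ _ _ (ee_pm G hne)]
  have hr : (0 : ℝ) < rr S ρ t G := by
    exact_mod_cast (by have := hD.2; omega : 0 < rr S ρ t G)
  have hmm : |mm S ρ t G v| ≤ 1 := by
    unfold mm
    rw [abs_div, abs_of_pos hr, div_le_one hr]
    exact abs_Xn_le S ρ t G v
  have hH := hoeff (mm S ρ t G v) (lm K1 S ρ t G) hmm
  have hX : Xn S ρ t G v = rr S ρ t G * mm S ρ t G v := by
    unfold mm; field_simp
  rw [hX]
  set W := Wt K1 y0 r1 r2 v S ρ t G with hW
  have hW0 : 0 ≤ W := Wt_nonneg _ _ _ _ _ _ _ _ _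
  set l := lm K1 S ρ t G
  set m := mm S ρ t G v
  set e := ee G v (ww S ρ t G)
  have e1 : W * (Real.exp (-(l ^ 2 / 2)) * Real.exp (-l * m) * Real.sinh l / (rr S ρ t G : ℝ)) *
      ((rr S ρ t G : ℝ) * e - (rr S ρ t G : ℝ) * m) =
      W * (Real.exp (-(l ^ 2 / 2)) * Real.exp (-l * m) * Real.sinh l * (e - m)) := by
    field_simp
  rw [e1]
  apply mul_le_mul_of_nonneg_left _ hW0
  have h5 : Real.exp (-(l ^ 2 / 2)) * (Real.exp (-l * m) * (Real.cosh l + m * Real.sinh l)) ≤ 1 := by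
    calc _ ≤ Real.exp (-(l ^ 2 / 2)) * Real.exp (l ^ 2 / 2) :=
          mul_le_mul_of_nonneg_left hH (Real.exp_pos _).le
      _ = 1 := by rw [← Real.exp_add]; simp
  linarith [h5, mul_comm (Real.exp (-l * m)) (Real.exp (-(l ^ 2 / 2)))]

theorem step (hb : S_Basic) (hm : S_MeasP) (hn : S_NegDrift) (K1 y0 : ℝ) (hK : 0 ≤ K1)
    (r1 r2 : ℕ) (h2 : 2 ≤ r2) {v : Fin n} {S : Finset (Fin n)} (hv : v ∈ S) {ρ : Rule n}
    (hρ : IsRule ρ) (t : ℕ) (htn : t < n) :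
    Ex (Wt K1 y0 r1 r2 v S ρ (t + 1)) +
      Ex (fun G => if ww S ρ t G = v then Wt K1 y0 r1 r2 v S ρ t G else 0) ≤
    Ex (Wt K1 y0 r1 r2 v S ρ t) := by
  have h1 := drift hm hn K1 y0 hK r1 r2 h2 hv hρ t
  have h3 := Ex_mono (step_pt hb K1 y0 hK r1 r2 h2 hv hρ t htn)
  rw [Ex_add, Ex_add] at h3
  have e1 : Ex (fun G => Wt K1 y0 r1 r2 v S ρ (t + 1) G) = Ex (Wt K1 y0 r1 r2 v S ρ (t + 1)) := rfl
  have e2 : Ex (fun G => Wt K1 y0 r1 r2 v S ρ t G) = Ex (Wt K1 y0 r1 r2 v S ρ t) := rfl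
  linarith

theorem tele (hb : S_Basic) (hm : S_MeasP) (hn : S_NegDrift) (K1 y0 : ℝ) (hK : 0 ≤ K1)
    (r1 r2 : ℕ) (h2 : 2 ≤ r2) {v : Fin n} {S : Finset (Fin n)} (hv : v ∈ S) {ρ : Rule n}
    (hρ : IsRule ρ) (T : ℕ) (hT : T ≤ n) :
    Ex (Wt K1 y0 r1 r2 v S ρ T) +
      ∑ t ∈ range T, Ex (fun G => if ww S ρ t G = v then Wt K1 y0 r1 r2 v S ρ t G else 0) ≤
    Ex (Wt K1 y0 r1 r2 v S ρ 0) := by
  induction T with
  | zero => simp
  | succ T ih =>
    rw [sum_range_succ]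
    have h1 := ih (by omega)
    have h3 := step hb hm hn K1 y0 hK r1 r2 h2 hv hρ T (by omega)
    linarith

theorem W0_le (K1 y0 : ℝ) (hK : 0 ≤ K1) (r1 r2 : ℕ) (v : Fin n) (S : Finset (Fin n))
    (hr1 : r1 ≤ n - S.card) (ρ : Rule n) (G : SimpleGraph (Fin n)) :
    Wt K1 y0 r1 r2 v S ρ 0 G ≤ Real.exp (2 * K1 * y0) := by
  have hrr : rr S ρ 0 G = n - S.card := by
    unfold rr NN
    rw [RR_zero, card_sdiff_of_subset (subset_univ S), card_univ, Fintype.card_fin]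
  unfold Wt
  split_ifs with h1 h2 h3
  · exact le_rfl
  · have h4 : rr S ρ 0 G = r1 := by omega
    rw [h4, tau_self]
    apply Real.exp_le_exp.mpr
    have h5 := h3.2 0 le_rfl h4
    have h6 : K1 * (-y0) ≤ K1 * (√(n : ℝ) / r1 * Xn S ρ 0 G v) :=
      mul_le_mul_of_nonneg_left h5 hK
    linarith
  · exact (Real.exp_pos _).le
  · exact (Real.exp_pos _).le

theorem p2 (hb : S_Basic) (hm : S_MeasP) (hn : S_NegDrift) : S_P2 := by
  intro n S ρ r1 r2 K1 y0 hρ hn2 h2 h21 hr1 hK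
  set c : ℝ := 2 * K1 ^ 2 * n / ((r1 : ℝ) - 1) with hc
  rw [Real.exp_sub, mul_div_assoc', le_div_iff₀ (Real.exp_pos _), ← Ex_mul_right]
  have hpt : ∀ G : SimpleGraph (Fin n),
      (((range n).filter (fun t => ww S ρ t G ∈ S ∧ r2 ≤ rr S ρ t G ∧
      rr S ρ t G ≤ r1 ∧
      √(n : ℝ) / (rr S ρ t G : ℝ) * Xn S ρ t G (ww S ρ t G) ≤ -K1 * n / ((rr S ρ t G : ℝ) - 1) ∧
      (∀ j, rr S ρ j G = r1 → -y0 ≤ √(n : ℝ) / r1 * Xn S ρ j G (ww S ρ t G)))).card : ℝ) *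
        Real.exp c ≤
      ∑ v ∈ S, ∑ t ∈ range n, (if ww S ρ t G = v then Wt K1 y0 r1 r2 v S ρ t G else 0) := by
    intro G
    rw [card_filter, Nat.cast_sum, sum_mul, sum_comm]
    apply sum_le_sum
    intro t ht
    have htn : t < n := mem_range.mp ht
    obtain ⟨_, hmem, _⟩ := hb n S ρ t G hρ
    have hmem := hmem htn
    split_ifs with hcond
    · obtain ⟨hwS, hr2, hrr1, hx, hj⟩ := hcond
      have h1 : (if ww S ρ t G = ww S ρ t G then Wt K1 y0 r1 r2 (ww S ρ t G) S ρ t G else 0) ≤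
          ∑ v ∈ S, (if ww S ρ t G = v then Wt K1 y0 r1 r2 v S ρ t G else 0) := by
        apply single_le_sum (f := fun v => if ww S ρ t G = v then Wt K1 y0 r1 r2 v S ρ t G else 0)
          _ hwS
        intro v _
        split_ifs
        · exact Wt_nonneg _ _ _ _ _ _ _ _ _
        · exact le_rfl
      rw [if_pos rfl] at h1
      refine le_trans ?_ h1
      unfold Wt
      rw [if_pos hmem, if_neg (by omega), if_pos ⟨hr2, fun j _ hjr => hj j hjr⟩]
      rw [Nat.cast_one, one_mul]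
      apply Real.exp_le_exp.mpr
      have h3 := tau_le n (rr S ρ t G) r1 (by omega) hrr1
      have h4 : K1 * (√(n : ℝ) / (rr S ρ t G : ℝ) * Xn S ρ t G (ww S ρ t G)) ≤
        K1 * (-K1 * n / ((rr S ρ t G : ℝ) - 1)) := mul_le_mul_of_nonneg_left hx hK
      have h5 : 2 * K1 ^ 2 * tau n r1 (rr S ρ t G) ≤
        2 * K1 ^ 2 * (n / ((rr S ρ t G : ℝ) - 1) - n / ((r1 : ℝ) - 1)) :=
        mul_le_mul_of_nonneg_left h3 (by positivity)
      have h6 : K1 * (-K1 * n / ((rr S ρ t G : ℝ) - 1)) = -(K1 ^ 2 * (n / ((rr S ρ t G : ℝ) - 1))) := by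
        ring
      have h7 : c = 2 * K1 ^ 2 * (n / ((r1 : ℝ) - 1)) := by rw [hc]; ring
      rw [h7]
      rw [h6] at h4
      linarith
    · rw [Nat.cast_zero, zero_mul]
      apply sum_nonneg
      intro v _
      split_ifs
      · exact Wt_nonneg _ _ _ _ _ _ _ _ _
      · exact le_rfl
  refine (Ex_mono hpt).trans ?_
  rw [Ex_sum]
  have hv : ∀ v ∈ S, Ex (fun G => ∑ t ∈ range n,
      (if ww S ρ t G = v then Wt K1 y0 r1 r2 v S ρ t G else 0)) ≤ Real.exp (2 * K1 * y0) := by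
    intro v hvS
    rw [Ex_sum]
    have h3 := tele hb hm hn K1 y0 hK r1 r2 h2 hvS hρ n le_rfl
    have h4 : Ex (Wt K1 y0 r1 r2 v S ρ 0) ≤ Real.exp (2 * K1 * y0) := by
      rw [← Ex_const (n := n) (Real.exp (2 * K1 * y0))]
      exact Ex_mono (W0_le K1 y0 hK r1 r2 v S hr1 ρ)
    have h5 : 0 ≤ Ex (Wt K1 y0 r1 r2 v S ρ n) := Ex_nonneg (Wt_nonneg K1 y0 r1 r2 v S ρ n)
    linarith
  calc _ ≤ ∑ v ∈ S, Real.exp (2 * K1 * y0) := sum_le_sum hv
    _ = _ := by rw [sum_const, nsmul_eq_mul]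

end

end W135.PK
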